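import Pool.Agent.W819.EN.Geom

set_option autoImplicit false

/-! Translation, monotonicity and superadditivity of the number of colour changes. -/

namespace Pool.Agent.W21.EN

open H974 H906.Cyl Finset Pool.Agent.W819.EN

/-- first exit of a chain from the set `A` -/
theorem Ch_exit {X : Type*} {R S : X → X → Prop} (A : X → Prop) {K : ℕ} {a b : X}
    (h : Ch R S K a b) (ha : A a) (hb : ¬ A b) : ∃ (c' c : X) (K1 K2 : ℕ), A c' ∧ ¬ A c ∧
      (R c' c ∨ S c' c) ∧ K1 + K2 = K ∧ Ch R S K1 a c ∧ Ch R S K2 c b := by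
  have key : ∀ {K : ℕ} {a b : X}, Ch R S K a b → A a →
      (A b ∧ Ch R S K a b) ∨
      ∃ (c' c : X) (K1 K2 : ℕ), A c' ∧ ¬ A c ∧ (R c' c ∨ S c' c) ∧ K1 + K2 = K ∧
        Ch R S K1 a c ∧ Ch R S K2 c b := by
    intro K a b h ha
    induction h with
    | refl k a => exact Or.inl ⟨ha, Ch.refl _ _⟩
    | @rel k a b' b hab hr ih =>
      rcases ih ha with ⟨h1, h2⟩ | ⟨c', c, K1, K2, h1, h2, h3, h4, h5, h6⟩
      · by_cases hb : A b
        · exact Or.inl ⟨hb, Ch.rel h2 hr⟩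
        · exact Or.inr ⟨b', b, k, 0, h1, hb, Or.inl hr, rfl, Ch.rel h2 hr, Ch.refl _ _⟩
      · exact Or.inr ⟨c', c, K1, K2, h1, h2, h3, h4, h5, Ch.rel h6 hr⟩
    | @step k a b' b hab hs ih =>
      rcases ih ha with ⟨h1, h2⟩ | ⟨c', c, K1, K2, h1, h2, h3, h4, h5, h6⟩
      · by_cases hb : A b
        · exact Or.inl ⟨hb, Ch.step h2 hs⟩
        · exact Or.inr ⟨b', b, k + 1, 0, h1, hb, Or.inr hs, rfl, Ch.step h2 hs, Ch.refl _ _⟩
      · exact Or.inr ⟨c', c, K1, K2 + 1, h1, h2, h3, by omega, h5, Ch.step h6 hs⟩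
  rcases key h ha with ⟨h1, -⟩ | h1
  · exact absurd h1 hb
  · exact h1

/-! ### monotonicity -/

theorem DA_mono {G : Set Edg} {v : Vtx} {r R r' R' K K' : ℕ} (hr : r' ≤ r) (hR : R ≤ R')
    (hK : K' ≤ K) (h : DA G v r' R' K') : DA G v r R K := by
  obtain ⟨p, q, hp, hq, hc⟩ := h
  exact ⟨p, q, by omega, by omega, hc.mono hK⟩

theorem row (G : Set Edg) (a b : ℤ) (j : ℕ) : Ch (Mv G) St j (a, b) (a + (j : ℤ), b) := by
  induction j with
  | zero =>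
    rw [Nat.cast_zero, add_zero]
    exact Ch.refl _ _
  | succ j ih =>
    refine Ch.step ih (Or.inl ⟨rfl, Or.inl ?_⟩)
    push_cast
    ring

theorem DA_top (G : Set Edg) (v : Vtx) (r R : ℕ) : DA G v r R (2 * R) := by
  refine ⟨(v.1 + v.2, v.1 - v.2), (v.1 + v.2 + ((2 * R : ℕ) : ℤ), v.1 - v.2), ?_, ?_,
    row G _ _ _⟩
  · unfold nmv
    simp
  · unfold nmv
    have e1 : v.1 + v.2 + ((2 * R : ℕ) : ℤ) - (v.1 + v.2) = ((2 * R : ℕ) : ℤ) := by ring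
    simp only [e1, sub_self, abs_zero, add_zero]
    have := le_abs_self (((2 * R : ℕ) : ℤ))
    push_cast at this ⊢
    exact this

theorem NA_le_iff {F : Finset Edg} {v : Vtx} {r R K : ℕ} :
    NA F v r R ≤ K ↔ DA (↑F : Set Edg) v r R K := by
  constructor
  · intro h
    have h1 : DA (↑F : Set Edg) v r R (NA F v r R) :=
      Nat.sInf_mem (s := {K | DA (↑F : Set Edg) v r R K}) ⟨2 * R, DA_top _ v r R⟩
    exact DA_mono le_rfl le_rfl h h1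
  · intro h
    exact Nat.sInf_le h

theorem NA_DA (F : Finset Edg) (v : Vtx) (r R : ℕ) : DA (↑F : Set Edg) v r R (NA F v r R) :=
  NA_le_iff.1 le_rfl

theorem t_MONO : SMono := by
  refine ⟨fun F v r r' R R' hr hR => ?_, fun F v r R => NA_le_iff.2 (DA_top _ v r R)⟩
  exact NA_le_iff.2 (DA_mono hr hR le_rfl (NA_DA F v r' R'))

/-! ### translation -/

/-- the translation of the faces -/
def sh (v : Vtx) (p : ℤ × ℤ) : ℤ × ℤ := (p.1 + (v.1 + v.2), p.2 + (v.1 - v.2))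

theorem nmv_sh (v w : Vtx) (p : ℤ × ℤ) : nmv (w.1 + v.1, w.2 + v.2) (sh v p) = nmv w p := by
  unfold nmv sh
  congr 2
  · simp only; ring
  · simp only; ring

theorem edz_sh (F : Finset Edg) (v : Vtx) (s d : ℤ) :
    edz (s + (v.1 + v.2)) (d + (v.1 - v.2)) ∈ (trl v.1 v.2).mp F ↔ edz s d ∈ F := by
  have hpar : (s + (v.1 + v.2) + (d + (v.1 - v.2))) % 2 = 0 ↔ (s + d) % 2 = 0 := by omega
  unfold edz
  by_cases h : (s + d) % 2 = 0
  · rw [if_pos h, if_pos (hpar.2 h), LSym.mem_mp, trl_φs]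
    have e1 : (s + (v.1 + v.2) + (d + (v.1 - v.2))) / 2 - v.1 = (s + d) / 2 := by omega
    have e2 : (s + (v.1 + v.2) - (d + (v.1 - v.2))) / 2 - v.2 = (s - d) / 2 := by omega
    rw [e1, e2]
  · rw [if_neg h, if_neg (fun h' => h (hpar.1 h')), LSym.mem_mp, trl_φs]
    have e1 : (s + (v.1 + v.2) + (d + (v.1 - v.2)) + 1) / 2 - v.1 = (s + d + 1) / 2 := by omega
    have e2 : (s + (v.1 + v.2) - (d + (v.1 - v.2)) - 1) / 2 - v.2 = (s - d - 1) / 2 := by omega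
    rw [e1, e2]

theorem lnk_sh (F : Finset Edg) (v : Vtx) (p q : ℤ × ℤ) :
    lnk (↑((trl v.1 v.2).mp F) : Set Edg) (sh v p) (sh v q) ↔ lnk (↑F : Set Edg) p q := by
  have hpar : ∀ s d : ℤ, (s + (v.1 + v.2) + (d + (v.1 - v.2))) % 2 = 0 ↔ (s + d) % 2 = 0 := by
    intro s d; omega
  have e1 : q.2 + (v.1 - v.2) = p.2 + (v.1 - v.2) + 1 ↔ q.2 = p.2 + 1 := by omega
  have e2 : q.1 + (v.1 + v.2) = p.1 + (v.1 + v.2) + 1 ↔ q.1 = p.1 + 1 := by omega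
  have e3 : p.1 + (v.1 + v.2) = q.1 + (v.1 + v.2) + 1 ↔ p.1 = q.1 + 1 := by omega
  unfold lnk sh
  simp only [mem_coe, edz_sh, hpar, e1, e2, e3]

theorem Mv_sh (F : Finset Edg) (v : Vtx) (p q : ℤ × ℤ) :
    Mv (↑((trl v.1 v.2).mp F) : Set Edg) (sh v p) (sh v q) ↔ Mv (↑F : Set Edg) p q := by
  unfold Mv
  rw [lnk_sh, lnk_sh]

theorem St_sh (v : Vtx) (p q : ℤ × ℤ) : St (sh v p) (sh v q) ↔ St p q := by
  unfold St nb sh
  simp only
  omega

/-- the inverse translation -/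
def hs (v : Vtx) (p : ℤ × ℤ) : ℤ × ℤ := (p.1 - (v.1 + v.2), p.2 - (v.1 - v.2))

theorem sh_hs (v : Vtx) (p : ℤ × ℤ) : sh v (hs v p) = p := by
  unfold sh hs
  ext <;> simp

theorem t_TR : STr := by
  intro F v w r R
  unfold NA
  congr 1
  ext K
  constructor
  · rintro ⟨p, q, hp, hq, hc⟩
    refine ⟨hs v p, hs v q, ?_, ?_, ?_⟩
    · rw [← nmv_sh v w, sh_hs]; exact hp
    · rw [← nmv_sh v w, sh_hs]; exact hq
    · refine Ch.map (hs v) (fun a b h => Ch.of_rel ?_) (fun a b h => Ch.of_step ?_) hc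
      · rw [← Mv_sh F v, sh_hs, sh_hs]; exact h
      · rw [← St_sh v, sh_hs, sh_hs]; exact h
  · rintro ⟨p, q, hp, hq, hc⟩
    refine ⟨sh v p, sh v q, ?_, ?_, ?_⟩
    · rw [nmv_sh]; exact hp
    · rw [nmv_sh]; exact hq
    · exact Ch.map (sh v) (fun a b h => Ch.of_rel ((Mv_sh F v a b).2 h))
        (fun a b h => Ch.of_step ((St_sh v a b).2 h)) hc

/-! ### superadditivity -/

theorem nmv_move {G : Set Edg} (v : Vtx) {p q : ℤ × ℤ} (h : Mv G p q ∨ St p q) :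
    nmv v q ≤ nmv v p + 2 := by
  have h1 : |q.1 - p.1| + |q.2 - p.2| ≤ 2 := by
    rcases h with (⟨h1, h2⟩ | ⟨h1, h2⟩) | h
    · rcases h2 with ⟨h2, -⟩ | ⟨h2, -⟩
      · rw [h1, h2]; ring_nf; norm_num
      · rw [h1, h2]; ring_nf; norm_num
    · rcases h2 with ⟨h2, -⟩ | ⟨h2, -⟩
      · rw [h1, h2]; ring_nf; norm_num
      · rw [h1, h2]; ring_nf; norm_num
    · rcases h with ⟨h1, h2 | h2⟩ | ⟨h1, h2 | h2⟩
      · rw [h1, h2]; ring_nf; norm_num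
      · rw [h1, h2]; ring_nf; norm_num
      · rw [h1, h2]; ring_nf; norm_num
      · rw [h1, h2]; ring_nf; norm_num
  unfold nmv
  have e1 : |q.1 - (v.1 + v.2)| ≤ |p.1 - (v.1 + v.2)| + |q.1 - p.1| := by
    have := abs_add_le (p.1 - (v.1 + v.2)) (q.1 - p.1)
    have e : p.1 - (v.1 + v.2) + (q.1 - p.1) = q.1 - (v.1 + v.2) := by ring
    rwa [e] at this
  have e2 : |q.2 - (v.1 - v.2)| ≤ |p.2 - (v.1 - v.2)| + |q.2 - p.2| := by
    have := abs_add_le (p.2 - (v.1 - v.2)) (q.2 - p.2)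
    have e : p.2 - (v.1 - v.2) + (q.2 - p.2) = q.2 - (v.1 - v.2) := by ring
    rwa [e] at this
  linarith

theorem t_SUPER : SSuper := by
  intro F v r1 R1 r2 R2 h1 h2 h3
  obtain ⟨p, q, hp, hq, hc⟩ := NA_DA F v r1 R2
  by_cases hpR : nmv v p < 2 * (R1 : ℤ)
  · have hqR : ¬ nmv v q < 2 * (R1 : ℤ) := by
      have : (R1 : ℤ) ≤ R2 := by exact_mod_cast (h2.le.trans h3)
      omega
    obtain ⟨c', c, K1, K2, hc1, hc2, hmv, hK, hch1, hch2⟩ :=
      Ch_exit (fun x => nmv v x < 2 * (R1 : ℤ)) hc hpR hqR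
    have hm := nmv_move v hmv
    have e1 : NA F v r1 R1 ≤ K1 := NA_le_iff.2 ⟨p, c, hp, not_lt.1 hc2, hch1⟩
    have e2 : NA F v r2 R2 ≤ K2 := NA_le_iff.2 ⟨c, q, by omega, hq, hch2⟩
    omega
  · have e1 : NA F v r1 R1 ≤ 0 := NA_le_iff.2 ⟨p, p, hp, not_lt.1 hpR, Ch.refl _ _⟩
    have e2 : NA F v r2 R2 ≤ NA F v r1 R2 := NA_le_iff.2 ⟨p, q, by omega, hq, hc⟩
    omega

end Pool.Agent.W21.EN
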